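import Pool.Agent.MT100.Stmts

/-!
# The pairing of the hypergeometric system: combinatorial part
-/

namespace Pool.Agent.Helper13_MT

open Finset Polynomial Pool.Agent.MT100

noncomputable section

/-- shift of a sequence -/
def sh {R : Type*} [Zero R] (f : ℕ → R) (a : ℕ) : R := if a = 0 then 0 else f (a - 1)

@[simp] lemma sh_zero {R : Type*} [Zero R] (f : ℕ → R) : sh f 0 = 0 := by simp [sh]

@[simp] lemma sh_succ {R : Type*} [Zero R] (f : ℕ → R) (a : ℕ) : sh f (a + 1) = f a := by
  simp [sh]

/-- the coefficients of `pp` -/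
def pc (D : Dat) (i a : ℕ) : ℚ := (pp D i).coeff a

lemma pc_zero (D : Dat) (a : ℕ) : pc D 0 a = if a = 0 then 1 else 0 := by
  simp [pc, pp, coeff_one]

lemma pc_succ (D : Dat) (i a : ℕ) : pc D (i + 1) a = sh (pc D i) a + bet D i * pc D i a := by
  unfold pc pp
  rw [prod_range_succ, mul_add, coeff_add, coeff_mul_C]
  rcases a with _ | a
  · simp [sh, mul_comm]
  · simp [sh, mul_comm]

lemma pc_eq_zero (D : Dat) (i a : ℕ) (h : i < a) : pc D i a = 0 := by
  induction i generalizing a with
  | zero => rw [pc_zero, if_neg (by omega)]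
  | succ i ih =>
    rw [pc_succ]
    obtain ⟨a, rfl⟩ : ∃ c, a = c + 1 := ⟨a - 1, by omega⟩
    rw [sh_succ, ih a (by omega), ih (a + 1) (by omega), mul_zero, add_zero]

lemma pc_top (D : Dat) (i : ℕ) : pc D i i = 1 := by
  induction i with
  | zero => simp [pc_zero]
  | succ i ih => rw [pc_succ, sh_succ, ih, pc_eq_zero D i (i + 1) (by omega), mul_zero, add_zero]

lemma bet_add (D : Dat) (i : ℕ) (hi : i < D.r) : bet D i + bet D (D.r - 1 - i) = 1 := by
  have hr : D.r = 2 * D.s := rfl
  unfold bet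
  by_cases h : i < D.s
  · have h1 : ¬ (D.r - 1 - i < D.s) := by omega
    have h2 : 2 * D.s - 1 - (D.r - 1 - i) < D.s := by omega
    rw [dif_pos h, dif_neg h1, dif_pos h2]
    have h3 : (⟨2 * D.s - 1 - (D.r - 1 - i), h2⟩ : Fin D.s) = ⟨i, h⟩ := by
      apply Fin.ext
      show 2 * D.s - 1 - (D.r - 1 - i) = i
      omega
    rw [h3]
    ring
  · have h1 : D.r - 1 - i < D.s := by omega
    have h2 : 2 * D.s - 1 - i < D.s := by omega
    rw [dif_neg h, dif_pos h1, dif_pos h2]
    have h3 : (⟨D.r - 1 - i, h1⟩ : Fin D.s) = ⟨2 * D.s - 1 - i, h2⟩ := by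
      apply Fin.ext
      show D.r - 1 - i = 2 * D.s - 1 - i
      omega
    rw [h3]
    ring

/-- the matrix of the second part of the pairing -/
def mm (D : Dat) (a b : ℕ) : ℚ :=
  ∑ i ∈ range D.r, (-1) ^ i * pc D i a * pc D (D.r - 1 - i) b

lemma mm_identity (D : Dat) (a b : ℕ) :
    sh (fun a => mm D a b) a + sh (fun b => mm D a b) b + mm D a b =
      pc D 0 a * pc D D.r b - pc D D.r a * pc D 0 b := by
  have h1 : sh (fun a => mm D a b) a =
      ∑ i ∈ range D.r, (-1) ^ i * sh (pc D i) a * pc D (D.r - 1 - i) b := by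
    rcases a with _ | a
    · simp
    · simp [mm]
  have h2 : sh (fun b => mm D a b) b =
      ∑ i ∈ range D.r, (-1) ^ i * pc D i a * sh (pc D (D.r - 1 - i)) b := by
    rcases b with _ | b
    · simp
    · simp [mm]
  have hr : D.r = 2 * D.s := rfl
  rw [h1, h2, mm, ← sum_add_distrib, ← sum_add_distrib]
  have h3 : ∀ i ∈ range D.r,
      ((-1) ^ i * sh (pc D i) a * pc D (D.r - 1 - i) b +
      (-1) ^ i * pc D i a * sh (pc D (D.r - 1 - i)) b) +
      (-1) ^ i * pc D i a * pc D (D.r - 1 - i) b =
      (-1) ^ i * (pc D i a * pc D (D.r - i) b) -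
        (-1) ^ (i + 1) * (pc D (i + 1) a * pc D (D.r - (i + 1)) b) := by
    intro i hi
    rw [mem_range] at hi
    have h4 : D.r - i = (D.r - 1 - i) + 1 := by omega
    have h5 : D.r - (i + 1) = D.r - 1 - i := by omega
    have h6 := bet_add D i hi
    rw [h4, h5, pc_succ D i a, pc_succ D (D.r - 1 - i) b, pow_succ]
    linear_combination -((-1) ^ i * pc D i a * pc D (D.r - 1 - i) b) * h6
  rw [sum_congr rfl h3, sum_range_sub' (fun i => (-1) ^ i * (pc D i a * pc D (D.r - i) b))]
  have h7 : ((-1 : ℚ)) ^ D.r = 1 := by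
    rw [hr, pow_mul]
    norm_num
  rw [h7]
  simp

lemma mm_antisymm (D : Dat) : ∀ n a b : ℕ, a + b = n → mm D a b + mm D b a = 0 := by
  intro n
  induction n using Nat.strong_induction_on with
  | _ n ih =>
    intro a b hab
    have h1 := mm_identity D a b
    have h2 := mm_identity D b a
    have h3 : sh (fun a => mm D a b) a + sh (fun b' => mm D b b') a = 0 := by
      rcases a with _ | a
      · simp
      · rw [sh_succ, sh_succ]
        exact ih (a + b) (by omega) a b rfl
    have h4 : sh (fun b => mm D a b) b + sh (fun b' => mm D b' a) b = 0 := by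
      rcases b with _ | b
      · simp
      · rw [sh_succ, sh_succ]
        exact ih (a + b) (by omega) a b rfl
    linear_combination h1 + h2 - h3 - h4

lemma mm_neg (D : Dat) (a b : ℕ) : mm D a b = - mm D b a := by
  have := mm_antisymm D (a + b) a b rfl
  linarith

lemma mm_top (D : Dat) (b : ℕ) : mm D (D.r - 1) b = if b = 0 then -1 else 0 := by
  have hr : D.r = 2 * D.s := rfl
  have hs := D.two_le
  unfold mm
  obtain ⟨t, ht⟩ : ∃ t, D.r = t + 1 := ⟨D.r - 1, by omega⟩
  rw [ht, sum_range_succ]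
  have h1 : ∀ i ∈ range t, (-1) ^ i * pc D i (t + 1 - 1) * pc D (t + 1 - 1 - i) b = 0 := by
    intro i hi
    rw [mem_range] at hi
    rw [pc_eq_zero D i (t + 1 - 1) (by omega)]
    ring
  rw [sum_eq_zero h1, zero_add]
  have h2 : t + 1 - 1 - t = 0 := by omega
  have h3 : t + 1 - 1 = t := by omega
  have h4 : ((-1 : ℚ)) ^ t = -1 := by
    have : Odd t := ⟨D.s - 1, by omega⟩
    exact this.neg_one_pow
  rw [h2, h3, pc_top, pc_zero, h4]
  split_ifs <;> ring

lemma pp_r (D : Dat) : pp D D.r = cf D := by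
  unfold pp cf
  have hr : D.r = D.s + D.s := by
    show 2 * D.s = D.s + D.s
    ring
  rw [hr, prod_range_add, prod_mul_distrib, ← Fin.prod_univ_eq_prod_range
    (fun j => (X + C (bet D j) : ℚ[X])) D.s, ← Fin.prod_univ_eq_prod_range
    (fun j => (X + C (bet D (D.s + j)) : ℚ[X])) D.s]
  congr 1
  · refine prod_congr rfl fun i _ => ?_
    unfold bet
    rw [dif_pos i.2]
  · rw [← Equiv.prod_comp Fin.revPerm]
    refine prod_congr rfl fun i _ => ?_
    have hi := i.2
    have h0 : ((Fin.revPerm i : Fin D.s) : ℕ) = D.s - 1 - i := by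
      rw [Fin.revPerm_apply, Fin.val_rev]
      omega
    rw [h0]
    unfold bet
    have h1 : ¬ (D.s + (D.s - 1 - (i : ℕ)) < D.s) := by omega
    have h2 : 2 * D.s - 1 - (D.s + (D.s - 1 - (i : ℕ))) < D.s := by omega
    rw [dif_neg h1, dif_pos h2]
    have h3 : (⟨2 * D.s - 1 - (D.s + (D.s - 1 - (i : ℕ))), h2⟩ : Fin D.s) = i := by
      apply Fin.ext
      show 2 * D.s - 1 - (D.s + (D.s - 1 - (i : ℕ))) = i
      omega
    rw [h3]

/-- the constant part of the pairing -/
def j0 (r a b : ℕ) : ℚ := if a + b + 1 = r then (-1) ^ a else 0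

lemma j0_identity (r a b : ℕ) (ha : a < r) (hb : b < r) :
    sh (fun a => j0 r a b) a + sh (fun b => j0 r a b) b = 0 := by
  rcases a with _ | a
  · rcases b with _ | b
    · simp
    · rw [sh_zero, sh_succ, zero_add]
      unfold j0
      rw [if_neg (by omega)]
  · rcases b with _ | b
    · rw [sh_zero, sh_succ, add_zero]
      unfold j0
      rw [if_neg (by omega)]
    · rw [sh_succ, sh_succ]
      unfold j0
      by_cases h : a + (b + 1) + 1 = r
      · rw [if_pos h, if_pos (by omega), pow_succ]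
        ring
      · rw [if_neg h, if_neg (by omega), add_zero]

/-- the pairing -/
def jj (D : Dat) (a b : ℕ) : ℚ[X] := C (j0 D.r a b) - C (D.lam * mm D a b) * X

lemma Jm_eq (D : Dat) (a b : Fin D.r) : Jm D a b = jj D a b := rfl

lemma jj_antisymm (D : Dat) (a b : ℕ) : jj D a b = - jj D b a := by
  unfold jj
  have h1 : j0 D.r a b = - j0 D.r b a := by
    unfold j0
    by_cases h : a + b + 1 = D.r
    · rw [if_pos h, if_pos (by omega)]
      have hr : D.r = 2 * D.s := rfl
      rcases Nat.even_or_odd a with ha | ha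
      · have hb : Odd b := by
          rw [Nat.odd_iff]
          rw [Nat.even_iff] at ha
          omega
        rw [ha.neg_one_pow, hb.neg_one_pow]
        norm_num
      · have hb : Even b := by
          rw [Nat.even_iff]
          rw [Nat.odd_iff] at ha
          omega
        rw [ha.neg_one_pow, hb.neg_one_pow]
    · rw [if_neg h, if_neg (by omega), neg_zero]
  rw [h1, mm_neg D a b]
  simp only [map_neg, mul_neg]
  ring

lemma jj_top (D : Dat) (b : ℕ) :
    jj D (D.r - 1) b = if b = 0 then -(1 - C D.lam * X) else 0 := by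
  have hr : D.r = 2 * D.s := rfl
  have hs := D.two_le
  unfold jj
  rw [mm_top]
  unfold j0
  by_cases hb : b = 0
  · subst hb
    rw [if_pos (by omega), if_pos rfl, if_pos rfl]
    have h4 : ((-1 : ℚ)) ^ (D.r - 1) = -1 := by
      have : Odd (D.r - 1) := ⟨D.s - 1, by omega⟩
      exact this.neg_one_pow
    rw [h4]
    simp only [map_neg, map_one, mul_neg, mul_one]
    ring
  · rw [if_neg (by omega), if_neg hb, if_neg hb]
    simp

lemma jj_top' (D : Dat) (a : ℕ) :
    jj D a (D.r - 1) = if a = 0 then (1 - C D.lam * X) else 0 := by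
  rw [jj_antisymm, jj_top]
  split_ifs <;> simp

lemma jj_identity (D : Dat) (a b : ℕ) (ha : a < D.r) (hb : b < D.r) :
    sh (fun a => jj D a b) a + sh (fun b => jj D a b) b - C (D.lam * mm D a b) * X +
      C D.lam * X * (C (pc D D.r b) * (if a = 0 then 1 else 0) -
        C (pc D D.r a) * (if b = 0 then 1 else 0)) = 0 := by
  have h1 : sh (fun a => jj D a b) a = C (sh (fun a => j0 D.r a b) a) -
      C (D.lam * sh (fun a => mm D a b) a) * X := by
    rcases a with _ | a
    · simp
    · simp [jj]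
  have h2 : sh (fun b => jj D a b) b = C (sh (fun b => j0 D.r a b) b) -
      C (D.lam * sh (fun b => mm D a b) b) * X := by
    rcases b with _ | b
    · simp
    · simp [jj]
  have h3 := congrArg (C : ℚ → ℚ[X]) (mm_identity D a b)
  have h4 := congrArg (C : ℚ → ℚ[X]) (j0_identity D.r a b ha hb)
  have h5 : (C (pc D 0 a) : ℚ[X]) = if a = 0 then 1 else 0 := by
    rw [pc_zero]
    split_ifs <;> simp
  have h6 : (C (pc D 0 b) : ℚ[X]) = if b = 0 then 1 else 0 := by
    rw [pc_zero]
    split_ifs <;> simp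
  rw [← h5, ← h6, h1, h2]
  simp only [map_add, map_sub, map_mul, map_zero] at h3 h4 ⊢
  linear_combination h4 - C D.lam * X * h3

end

end Pool.Agent.Helper13_MT
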