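import Pool.Agent.Helper13_MT.Core

/-!
# The pairing of the hypergeometric system (module PAI of MT100)
-/

namespace Pool.Agent.Helper13_MT

open Finset Polynomial Pool.Agent.MT100 Matrix

noncomputable section

lemma A0_mul (D : Dat) (a b : Fin D.r) :
    ∑ c : Fin D.r, A0 D c a * Jm D c b =
      (1 - C D.lam * X) * sh (fun a => jj D a b) a +
        C (D.lam * pc D D.r a) * X * jj D (D.r - 1) b := by
  have hr : D.r = 2 * D.s := rfl
  have hs := D.two_le
  have h0 : (cf D).coeff a = pc D D.r a := by rw [pc, pp_r]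
  unfold A0
  simp only [add_mul, sum_add_distrib, Jm_eq]
  congr 1
  · have ha := a.2
    by_cases h : (a : ℕ) = 0
    · rw [h, sh_zero, mul_zero]
      refine sum_eq_zero fun c _ => ?_
      rw [if_neg (by omega), zero_mul]
    · obtain ⟨t, ht⟩ : ∃ t, (a : ℕ) = t + 1 := ⟨(a : ℕ) - 1, by omega⟩
      rw [ht, sh_succ]
      rw [sum_eq_single (⟨t, by omega⟩ : Fin D.r)]
      · rw [if_pos rfl]
      · intro c _ hc
        rw [if_neg, zero_mul]
        intro h1
        apply hc
        apply Fin.ext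
        show (c : ℕ) = t
        omega
      · intro h1
        exact absurd (mem_univ _) h1
  · rw [sum_eq_single (⟨D.r - 1, by omega⟩ : Fin D.r)]
    · rw [if_pos (by show D.r - 1 + 1 = D.r; omega), h0]
    · intro c _ hc
      have hc2 := c.2
      rw [if_neg, zero_mul]
      intro h1
      apply hc
      apply Fin.ext
      show (c : ℕ) = D.r - 1
      omega
    · intro h1
      exact absurd (mem_univ _) h1

lemma mul_A0 (D : Dat) (a b : Fin D.r) :
    ∑ c : Fin D.r, Jm D a c * A0 D c b =
      (1 - C D.lam * X) * sh (fun b => jj D a b) b +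
        C (D.lam * pc D D.r b) * X * jj D a (D.r - 1) := by
  have h1 := A0_mul D b a
  have h2 : ∑ c : Fin D.r, Jm D a c * A0 D c b = - ∑ c : Fin D.r, A0 D c b * Jm D c a := by
    rw [← sum_neg_distrib]
    refine sum_congr rfl fun c _ => ?_
    rw [Jm_eq, Jm_eq, jj_antisymm D a c]
    ring
  rw [h2, h1, jj_antisymm D a (D.r - 1)]
  have h3 : sh (fun b => jj D a b) b = - sh (fun a' => jj D a' a) b := by
    rcases Nat.eq_zero_or_pos (b : ℕ) with h | h
    · rw [h, sh_zero, sh_zero, neg_zero]
    · obtain ⟨t, ht⟩ : ∃ t, (b : ℕ) = t + 1 := ⟨(b : ℕ) - 1, by omega⟩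
      rw [ht, sh_succ, sh_succ, jj_antisymm]
  rw [h3]
  ring

lemma poly_identity (D : Dat) (a b : Fin D.r) :
    ∑ c : Fin D.r, A0 D c a * Jm D c b +
      ((1 - C D.lam * X) * X) * derivative (Jm D a b) +
      ∑ c : Fin D.r, Jm D a c * A0 D c b = 0 := by
  rw [A0_mul, mul_A0, jj_top, jj_top']
  have h1 : derivative (Jm D a b) = - C (D.lam * mm D a b) := by
    rw [Jm_eq]
    unfold jj
    simp
  rw [h1]
  have h2 := jj_identity D a b a.2 b.2
  have h3 : (if (b : ℕ) = 0 then -(1 - C D.lam * X) else 0 : ℚ[X]) =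
      -((1 - C D.lam * X) * if (b : ℕ) = 0 then 1 else 0) := by
    split_ifs <;> simp
  have h4 : (if (a : ℕ) = 0 then (1 - C D.lam * X) else 0 : ℚ[X]) =
      (1 - C D.lam * X) * if (a : ℕ) = 0 then 1 else 0 := by
    split_ifs <;> simp
  rw [h3, h4]
  simp only [C_mul] at h2 ⊢
  linear_combination (1 - C D.lam * X) * h2

/-- polynomials as power series -/
abbrev co : ℚ[X] → PowerSeries ℚ := fun p => (p : PowerSeries ℚ)

lemma co_sum {ι : Type*} (s : Finset ι) (f : ι → ℚ[X]) : co (∑ i ∈ s, f i) = ∑ i ∈ s, co (f i) :=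
  map_sum (Polynomial.coeToPowerSeries.ringHom (R := ℚ)) f s

lemma series_identity (D : Dat) :
    ((A0 D).map co)ᵀ * (Jm D).map co + (co (1 - C D.lam * X) * PowerSeries.X) •
      ((Jm D).map co).map dv + (Jm D).map co * (A0 D).map co = 0 := by
  ext1 a b
  have h := congrArg co (poly_identity D a b)
  simp only [Matrix.add_apply, Matrix.mul_apply, Matrix.transpose_apply, Matrix.map_apply,
    Matrix.smul_apply, Matrix.zero_apply, smul_eq_mul]
  have h1 : dv (co (Jm D a b)) = co (derivative (Jm D a b)) := by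
    show PowerSeries.derivative ℚ _ = _
    exact PowerSeries.derivative_coe _
  rw [h1]
  have h2 : co ((1 - C D.lam * X) * X * derivative (Jm D a b)) =
      co (1 - C D.lam * X) * PowerSeries.X * co (derivative (Jm D a b)) := by
    show ((((1 - C D.lam * X) * X * derivative (Jm D a b) : ℚ[X])) : PowerSeries ℚ) = _
    rw [Polynomial.coe_mul, Polynomial.coe_mul, Polynomial.coe_X]
  have h3 : co (∑ c : Fin D.r, A0 D c a * Jm D c b) =
      ∑ c : Fin D.r, co (A0 D c a) * co (Jm D c b) := by
    rw [co_sum]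
    exact sum_congr rfl fun c _ => Polynomial.coe_mul _ _
  have h4 : co (∑ c : Fin D.r, Jm D a c * A0 D c b) =
      ∑ c : Fin D.r, co (Jm D a c) * co (A0 D c b) := by
    rw [co_sum]
    exact sum_congr rfl fun c _ => Polynomial.coe_mul _ _
  rw [← h2, ← h3, ← h4]
  have h5 : ∀ p q : ℚ[X], co (p + q) = co p + co q := fun p q => Polynomial.coe_add _ _
  rw [← h5, ← h5, h]
  exact Polynomial.coe_zero

lemma map_dv_mul {n : Type*} [Fintype n] (M N : Matrix n n (PowerSeries ℚ)) :
    (M * N).map dv = M.map dv * N + M * N.map dv := by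
  ext1 a b
  simp only [Matrix.map_apply, Matrix.mul_apply, Matrix.add_apply]
  show PowerSeries.derivative ℚ _ = _
  rw [map_sum, ← sum_add_distrib]
  refine sum_congr rfl fun c _ => ?_
  rw [Derivation.leibniz, smul_eq_mul, smul_eq_mul]
  ring

/-- the shift as a matrix of power series -/
abbrev NN (r : ℕ) : Matrix (Fin r) (Fin r) (PowerSeries ℚ) :=
  (Nsh r).map (fun x => (x : PowerSeries ℚ))

lemma phi_ode (hyp : HypStmt) (D : Dat) :
    (PowerSeries.X : PowerSeries ℚ) • ((Hyp D)ᵀ * (Jm D).map co * Hyp D).map dv =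
      -((NN D.r)ᵀ * ((Hyp D)ᵀ * (Jm D).map co * Hyp D) +
        ((Hyp D)ᵀ * (Jm D).map co * Hyp D) * NN D.r) := by
  obtain ⟨_, ode⟩ := hyp D
  set H := Hyp D with hH
  set J := (Jm D).map co with hJ
  set A := (A0 D).map co with hA
  set N := NN D.r with hN
  set q : PowerSeries ℚ := co (1 - C D.lam * X) with hq
  have ode' : (q * PowerSeries.X) • H.map dv = A * H - q • (H * N) := ode
  have odeT : (q * PowerSeries.X) • (Hᵀ).map dv = Hᵀ * Aᵀ - q • (Nᵀ * Hᵀ) := by
    have h1 := congrArg Matrix.transpose ode'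
    rw [Matrix.transpose_smul, Matrix.transpose_sub, Matrix.transpose_smul, Matrix.transpose_mul,
      Matrix.transpose_mul] at h1
    exact h1
  have hid : Aᵀ * J + (q * PowerSeries.X) • J.map dv + J * A = 0 := series_identity D
  have hq0 : q ≠ 0 := by
    intro h
    have h1 := congrArg (PowerSeries.coeff 0) h
    rw [hq] at h1
    simp [co] at h1
  have hmain : q • ((PowerSeries.X : PowerSeries ℚ) • (Hᵀ * J * H).map dv) =
      q • (-(Nᵀ * (Hᵀ * J * H) + (Hᵀ * J * H) * N)) := by
    rw [map_dv_mul, map_dv_mul, smul_smul]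
    have h1 : (q * PowerSeries.X) • ((Hᵀ.map dv * J + Hᵀ * J.map dv) * H + Hᵀ * J * H.map dv) =
        ((q * PowerSeries.X) • Hᵀ.map dv) * J * H +
          Hᵀ * ((q * PowerSeries.X) • J.map dv) * H +
          Hᵀ * J * ((q * PowerSeries.X) • H.map dv) := by
      simp only [smul_add, Matrix.add_mul, Matrix.smul_mul, Matrix.mul_smul]
    rw [h1, odeT, ode']
    have h2 : (q * PowerSeries.X) • J.map dv = -(Aᵀ * J + J * A) := by
      have h3 : Aᵀ * J + (q * PowerSeries.X) • J.map dv + J * A -
          (Aᵀ * J + J * A) = 0 - (Aᵀ * J + J * A) := by rw [hid]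
      rw [zero_sub] at h3
      rw [← h3]
      abel
    rw [h2]
    simp only [Matrix.sub_mul, Matrix.mul_sub, Matrix.mul_neg, Matrix.neg_mul, Matrix.mul_add,
      Matrix.add_mul, Matrix.smul_mul, Matrix.mul_smul, Matrix.mul_assoc, smul_neg, smul_add]
    abel
  ext1 a b
  have h2 := congrFun (congrFun hmain a) b
  rw [Matrix.smul_apply, Matrix.smul_apply _ (-_), smul_eq_mul, smul_eq_mul] at h2
  exact mul_left_cancel₀ hq0 h2

lemma NT_mul (r : ℕ) (F : Matrix (Fin r) (Fin r) (PowerSeries ℚ)) (a b : Fin r) :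
    ((NN r)ᵀ * F) a b = if h : (a : ℕ) = 0 then 0 else F ⟨(a : ℕ) - 1, by omega⟩ b := by
  rw [Matrix.mul_apply]
  simp only [Matrix.transpose_apply, Matrix.map_apply, Nsh]
  split_ifs with h
  · refine sum_eq_zero fun c _ => ?_
    rw [if_neg (by omega)]
    simp
  · rw [sum_eq_single (⟨(a : ℕ) - 1, by omega⟩ : Fin r)]
    · rw [if_pos (by show (a : ℕ) - 1 + 1 = a; omega)]
      simp
    · intro c _ hc
      rw [if_neg]
      · simp
      · intro h1
        apply hc
        apply Fin.ext
        show (c : ℕ) = (a : ℕ) - 1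
        omega
    · intro h1
      exact absurd (mem_univ _) h1

lemma mul_NN (r : ℕ) (F : Matrix (Fin r) (Fin r) (PowerSeries ℚ)) (a b : Fin r) :
    (F * NN r) a b = if h : (b : ℕ) = 0 then 0 else F a ⟨(b : ℕ) - 1, by omega⟩ := by
  rw [Matrix.mul_apply]
  simp only [Matrix.map_apply, Nsh]
  split_ifs with h
  · refine sum_eq_zero fun c _ => ?_
    rw [if_neg (by omega)]
    simp
  · rw [sum_eq_single (⟨(b : ℕ) - 1, by omega⟩ : Fin r)]
    · rw [if_pos (by show (b : ℕ) - 1 + 1 = b; omega)]
      simp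
    · intro c _ hc
      rw [if_neg]
      · simp
      · intro h1
        apply hc
        apply Fin.ext
        show (c : ℕ) = (b : ℕ) - 1
        omega
    · intro h1
      exact absurd (mem_univ _) h1

/-- a solution of the equation of the pairing is constant -/
lemma const_of_ode (r : ℕ) (F : Matrix (Fin r) (Fin r) (PowerSeries ℚ))
    (h : (PowerSeries.X : PowerSeries ℚ) • F.map dv = -((NN r)ᵀ * F + F * NN r)) (k : ℕ)
    (hk : k ≠ 0) : ∀ (n : ℕ) (a b : Fin r), (a : ℕ) + b = n → PowerSeries.coeff k (F a b) = 0 := by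
  intro n
  induction n using Nat.strong_induction_on with
  | _ n ih =>
    intro a b hab
    have h1 := congrArg (PowerSeries.coeff k) (congrFun (congrFun h a) b)
    rw [Matrix.smul_apply, Matrix.neg_apply, Matrix.add_apply, NT_mul, mul_NN, smul_eq_mul,
      Matrix.map_apply] at h1
    obtain ⟨m, rfl⟩ : ∃ m, k = m + 1 := ⟨k - 1, by omega⟩
    have h2 : PowerSeries.coeff (m + 1) ((PowerSeries.X : PowerSeries ℚ) * dv (F a b)) =
        PowerSeries.coeff (m + 1) (F a b) * ((m : ℚ) + 1) := by
      rw [PowerSeries.coeff_succ_X_mul]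
      show PowerSeries.coeff m (PowerSeries.derivative ℚ (F a b)) = _
      rw [PowerSeries.coeff_derivative]
    rw [h2, map_neg, map_add] at h1
    have h3 : PowerSeries.coeff (m + 1)
        (if h : (a : ℕ) = 0 then 0 else F ⟨(a : ℕ) - 1, by omega⟩ b) = 0 := by
      split_ifs with h4
      · simp
      · exact ih ((a : ℕ) - 1 + b) (by omega) _ _ rfl
    have h5 : PowerSeries.coeff (m + 1)
        (if h : (b : ℕ) = 0 then 0 else F a ⟨(b : ℕ) - 1, by omega⟩) = 0 := by
      split_ifs with h4
      · simp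
      · exact ih ((a : ℕ) + (b - 1)) (by omega) _ _ rfl
    rw [h3, h5, add_zero, neg_zero] at h1
    have h6 : ((m : ℚ) + 1) ≠ 0 := by positivity
    exact (mul_eq_zero.mp h1).resolve_right h6

theorem pai (hyp : HypStmt) : PaiStmt := by
  intro D
  refine ⟨?_, ?_⟩
  · ext1 a b
    rw [Matrix.transpose_apply, Matrix.neg_apply, Jm_eq, Jm_eq, jj_antisymm]
  · obtain ⟨hone, _⟩ := hyp D
    have hode := phi_ode hyp D
    ext1 a b
    show ((Hyp D)ᵀ * (Jm D).map co * Hyp D) a b = PowerSeries.C (J0 D.r a b)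
    ext k
    rw [PowerSeries.coeff_C]
    by_cases hk : k = 0
    · subst hk
      rw [if_pos rfl]
      have h1 : ∀ M N : Matrix (Fin D.r) (Fin D.r) (PowerSeries ℚ),
          (M * N).map (PowerSeries.constantCoeff (R := ℚ)) =
            M.map (PowerSeries.constantCoeff (R := ℚ)) *
              N.map (PowerSeries.constantCoeff (R := ℚ)) := fun M N =>
        Matrix.map_mul
      have h2 : (Hyp D).map (PowerSeries.constantCoeff (R := ℚ)) = 1 := by
        ext1 i j
        rw [Matrix.map_apply, hone, Matrix.one_apply]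
      have h3 : ((Hyp D)ᵀ * (Jm D).map co * Hyp D).map (PowerSeries.constantCoeff (R := ℚ)) =
          ((Jm D).map co).map (PowerSeries.constantCoeff (R := ℚ)) := by
        rw [h1, h1, Matrix.transpose_map, h2, Matrix.transpose_one, Matrix.one_mul,
          Matrix.mul_one]
      have h4 := congrFun (congrFun h3 a) b
      rw [Matrix.map_apply, Matrix.map_apply, Matrix.map_apply] at h4
      rw [PowerSeries.coeff_zero_eq_constantCoeff_apply, h4]
      rw [← PowerSeries.coeff_zero_eq_constantCoeff_apply]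
      show PowerSeries.coeff 0 ((Jm D a b : ℚ[X]) : PowerSeries ℚ) = _
      rw [Polynomial.coeff_coe]
      unfold Jm
      simp
    · rw [if_neg hk]
      exact const_of_ode D.r _ hode k hk _ a b rfl

end

end Pool.Agent.Helper13_MT
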